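import Pool.Agent.Y915.Stm2

set_option autoImplicit false

/-!
# A series whose composite with a local coordinate converges has a positive radius
-/

namespace Pool.Agent.Y255.PC

open scoped PowerSeries Topology
open Finset Filter Pool.Agent.Y915

/-- `f` is the Taylor series of `h` at `0`. -/
def Is (h : ℂ → ℂ) (f : ℂ⟦X⟧) : Prop :=
  ∀ᶠ z in 𝓝 (0 : ℂ), HasSum (fun n => z ^ n * PowerSeries.coeff n f) (h z)

/-- the formal multilinear series -/
noncomputable def fms (f : ℂ⟦X⟧) : FormalMultilinearSeries ℂ ℂ ℂ :=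
  FormalMultilinearSeries.ofScalars ℂ (fun n => PowerSeries.coeff n f)

lemma fms_coeff (f : ℂ⟦X⟧) (n : ℕ) : (fms f).coeff n = PowerSeries.coeff n f := by
  unfold fms
  rw [FormalMultilinearSeries.coeff_ofScalars]

lemma is_iff (h : ℂ → ℂ) (f : ℂ⟦X⟧) : Is h f ↔ HasFPowerSeriesAt h (fms f) 0 := by
  rw [hasFPowerSeriesAt_iff]
  unfold Is
  simp only [fms_coeff, smul_eq_mul, zero_add]

lemma Is.unique {h : ℂ → ℂ} {f g : ℂ⟦X⟧} (hf : Is h f) (hg : Is h g) : f = g := by
  rw [is_iff] at hf hg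
  have e := hf.eq_formalMultilinearSeries hg
  ext n
  rw [← fms_coeff, ← fms_coeff, e]

lemma Is.congr {h k : ℂ → ℂ} {f : ℂ⟦X⟧} (hf : Is h f) (hk : h =ᶠ[𝓝 0] k) : Is k f := by
  unfold Is at *
  filter_upwards [hf, hk] with z h1 h2
  rwa [← h2]

lemma Is.eventuallyEq {h k : ℂ → ℂ} {f : ℂ⟦X⟧} (hf : Is h f) (hk : Is k f) : h =ᶠ[𝓝 0] k := by
  filter_upwards [hf, hk] with z h1 h2
  exact h1.unique h2

lemma Is.analytic {h : ℂ → ℂ} {f : ℂ⟦X⟧} (hf : Is h f) : AnalyticAt ℂ h 0 :=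
  ⟨_, (is_iff h f).1 hf⟩

lemma exists_is {h : ℂ → ℂ} (hh : AnalyticAt ℂ h 0) : ∃ f : ℂ⟦X⟧, Is h f := by
  obtain ⟨p, hp⟩ := hh
  refine ⟨PowerSeries.mk fun n => p.coeff n, ?_⟩
  rw [hasFPowerSeriesAt_iff] at hp
  unfold Is
  simp only [PowerSeries.coeff_mk]
  simpa only [smul_eq_mul, zero_add] using hp

lemma Is.gd {h : ℂ → ℂ} {f : ℂ⟦X⟧} (hf : Is h f) : ∃ r : ℝ, 0 < r ∧ Gd r f := by
  obtain ⟨δ, hδ, hb⟩ := Metric.eventually_nhds_iff.1 hf
  refine ⟨δ, hδ, fun ρ h0 h1 => ?_⟩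
  have h2 := hb (y := (ρ : ℂ)) (by
    rw [dist_zero_right, Complex.norm_real, Real.norm_eq_abs, abs_of_pos h0]; exact h1)
  have h3 := h2.summable.tendsto_atTop_zero.norm.bddAbove_range
  obtain ⟨B, hB⟩ := h3
  refine ⟨B, fun m => ?_⟩
  have h4 := hB ⟨m, rfl⟩
  simp only [norm_mul, norm_pow, Complex.norm_real, Real.norm_eq_abs, abs_of_pos h0] at h4
  rw [mul_comm]
  exact h4

lemma Gd.summable {r : ℝ} {f : ℂ⟦X⟧} (hf : Gd r f) {z : ℂ} (hz : ‖z‖ < r) :
    Summable fun n => ‖z ^ n * PowerSeries.coeff n f‖ := by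
  obtain ⟨ρ, h1, h2⟩ := exists_between hz
  have hρ : 0 < ρ := (norm_nonneg z).trans_lt h1
  obtain ⟨B, hB0, hB⟩ := hf.nonneg hρ h2
  refine Summable.of_nonneg_of_le (fun _ => norm_nonneg _) (fun n => ?_)
    ((summable_geometric_of_lt_one (r := ‖z‖ / ρ) (by positivity)
      ((div_lt_one hρ).2 h1)).mul_left B)
  rw [norm_mul, norm_pow]
  have h3 := hB n
  calc ‖z‖ ^ n * ‖PowerSeries.coeff n f‖ = (‖PowerSeries.coeff n f‖ * ρ ^ n) * (‖z‖ / ρ) ^ n := by
        rw [div_pow]; field_simp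
    _ ≤ B * (‖z‖ / ρ) ^ n := by gcongr

lemma Gd.is {r : ℝ} (hr : 0 < r) {f : ℂ⟦X⟧} (hf : Gd r f) :
    Is (fun z => ∑' n, z ^ n * PowerSeries.coeff n f) f := by
  have h1 : ∀ᶠ z in 𝓝 (0 : ℂ), ‖z‖ < r := by
    filter_upwards [Metric.ball_mem_nhds (0 : ℂ) hr] with z hz
    simpa using hz
  filter_upwards [h1] with z hz
  exact (Summable.of_norm (Gd.summable hf hz)).hasSum

lemma Is.add {h k : ℂ → ℂ} {f g : ℂ⟦X⟧} (hf : Is h f) (hg : Is k g) :
    Is (fun z => h z + k z) (f + g) := by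
  filter_upwards [hf, hg] with z h1 h2
  refine (h1.add h2).congr_fun fun n => ?_
  rw [map_add, mul_add]

lemma Is.mul {h k : ℂ → ℂ} {f g : ℂ⟦X⟧} (hf : Is h f) (hg : Is k g) :
    Is (fun z => h z * k z) (f * g) := by
  obtain ⟨r, hr, hr'⟩ := hf.gd
  obtain ⟨s, hs, hs'⟩ := hg.gd
  have hb : ∀ᶠ z in 𝓝 (0 : ℂ), ‖z‖ < min r s := by
    filter_upwards [Metric.ball_mem_nhds (0 : ℂ) (lt_min hr hs)] with z hz
    simpa using hz
  filter_upwards [hf, hg, hb] with z h1 h2 hz
  have s1 := Gd.summable hr' (hz.trans_le (min_le_left _ _))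
  have s2 := Gd.summable hs' (hz.trans_le (min_le_right _ _))
  have s3 := summable_norm_sum_mul_antidiagonal_of_summable_norm s1 s2
  have e := tsum_mul_tsum_eq_tsum_sum_antidiagonal_of_summable_norm s1 s2
  rw [h1.tsum_eq, h2.tsum_eq] at e
  rw [e]
  have e2 : (fun n => z ^ n * PowerSeries.coeff n (f * g)) = fun n =>
      ∑ kl ∈ antidiagonal n, z ^ kl.1 * PowerSeries.coeff kl.1 f *
        (z ^ kl.2 * PowerSeries.coeff kl.2 g) := by
    ext n
    rw [PowerSeries.coeff_mul, mul_sum]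
    refine sum_congr rfl fun p hp => ?_
    rw [← mem_antidiagonal.1 hp, pow_add]
    ring
  rw [e2]
  exact s3.of_norm.hasSum

lemma Is.const (a : ℂ) : Is (fun _ => a) (PowerSeries.C a) := by
  refine Eventually.of_forall fun z => ?_
  have h := hasSum_single (f := fun n => z ^ n * PowerSeries.coeff n (PowerSeries.C a)) 0
    (fun n hn => by rw [PowerSeries.coeff_C, if_neg hn, mul_zero])
  simpa using h

lemma Is.X : Is (fun z => z) (PowerSeries.X : ℂ⟦X⟧) := by
  refine Eventually.of_forall fun z => ?_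
  have h := hasSum_single (f := fun n => z ^ n * PowerSeries.coeff n (PowerSeries.X : ℂ⟦X⟧)) 1
    (fun n hn => by rw [PowerSeries.coeff_X, if_neg hn, mul_zero])
  simpa using h

lemma Is.zero_apply {h : ℂ → ℂ} {f : ℂ⟦X⟧} (hf : Is h f) :
    h 0 = PowerSeries.constantCoeff f := by
  have h1 := hf.self_of_nhds
  have h2 := hasSum_single (f := fun n => (0 : ℂ) ^ n * PowerSeries.coeff n f) 0
    (fun n hn => by rw [zero_pow hn, zero_mul])
  have := h1.unique h2
  simpa using this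

lemma Gd.shift {r : ℝ} {f : ℂ⟦X⟧} (hf : Gd r f) :
    Gd r (PowerSeries.mk fun n => PowerSeries.coeff (n + 1) f) := by
  intro ρ h0 h1
  obtain ⟨B, hB⟩ := hf ρ h0 h1
  refine ⟨B / ρ, fun m => ?_⟩
  rw [PowerSeries.coeff_mk, le_div_iff₀ h0]
  have := hB (m + 1)
  rw [pow_succ] at this
  linarith

/-- The Taylor series of a composite, modulo `X ^ n`. -/
lemma comp_dvd {U : ℂ → ℂ} {u : ℂ⟦X⟧} (hU : Is U u) (hu : PowerSeries.constantCoeff u = 0) (n : ℕ) :
    ∀ (G : ℂ → ℂ) (g F : ℂ⟦X⟧), Is G g → Is (fun z => G (U z)) F →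
      (PowerSeries.X : ℂ⟦X⟧) ^ n ∣ F - sub u hu g := by
  induction n with
  | zero => intro G g F _ _; simp
  | succ n ih =>
    intro G g F hG hF
    obtain ⟨r, hr, hg⟩ := hG.gd
    have hU0 : U 0 = 0 := by rw [hU.zero_apply, hu]
    set g1 : ℂ⟦X⟧ := PowerSeries.mk fun n => PowerSeries.coeff (n + 1) g with hg1
    have h1 : Gd r g1 := Gd.shift hg
    obtain ⟨G1, hG1⟩ : ∃ G1, Is G1 g1 := ⟨_, Gd.is hr h1⟩
    have hgg : g = PowerSeries.C (PowerSeries.constantCoeff g) + PowerSeries.X * g1 := by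
      rw [hg1]
      have := PowerSeries.eq_X_mul_shift_add_const g
      conv_lhs => rw [this]
      rw [add_comm]
    have h2 : Is (fun z => PowerSeries.constantCoeff g + z * G1 z) g := by
      have := (Is.const (PowerSeries.constantCoeff g)).add (Is.X.mul hG1)
      rwa [← hgg] at this
    have h3 : ∀ᶠ z in 𝓝 (0 : ℂ), G z = PowerSeries.constantCoeff g + z * G1 z :=
      hG.eventuallyEq h2
    have hUc : Tendsto U (𝓝 0) (𝓝 0) := by
      have := hU.analytic.continuousAt.tendsto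
      rwa [hU0] at this
    have h4 := hUc.eventually h3
    have hA : AnalyticAt ℂ (fun z => G1 (U z)) 0 := by
      have hG1a := hG1.analytic
      rw [← hU0] at hG1a
      exact hG1a.comp hU.analytic
    obtain ⟨F1, hF1⟩ := exists_is hA
    have h5 : Is (fun z => G (U z)) (PowerSeries.C (PowerSeries.constantCoeff g) + u * F1) := by
      refine ((Is.const (PowerSeries.constantCoeff g)).add (hU.mul hF1)).congr ?_
      filter_upwards [h4] with z hz
      exact hz.symm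
    have h6 := hF.unique h5
    have h7 := ih G1 g1 F1 hG1 hF1
    have h8 : sub u hu g = PowerSeries.C (PowerSeries.constantCoeff g) + u * sub u hu g1 := by
      conv_lhs => rw [hgg]
      rw [map_add, map_mul, sub_X, sub_C]
    have h9 : F - sub u hu g = u * (F1 - sub u hu g1) := by rw [h6, h8]; ring
    rw [h9, pow_succ']
    exact mul_dvd_mul (PowerSeries.X_dvd_iff.2 hu) h7

lemma comp_eq {U : ℂ → ℂ} {u : ℂ⟦X⟧} (hU : Is U u) (hu : PowerSeries.constantCoeff u = 0)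
    {G : ℂ → ℂ} {g F : ℂ⟦X⟧} (hG : Is G g) (hF : Is (fun z => G (U z)) F) : F = sub u hu g := by
  have h : ∀ n, PowerSeries.coeff n (F - sub u hu g) = 0 := fun n =>
    PowerSeries.X_pow_dvd_iff.1 (comp_dvd hU hu (n + 1) G g F hG hF) n (Nat.lt_succ_self n)
  have h2 : F - sub u hu g = 0 := by
    ext n
    rw [h n]; simp
  exact sub_eq_zero.1 h2

lemma sub_injective {u : ℂ⟦X⟧} (hu : PowerSeries.constantCoeff u = 0)
    (h1 : PowerSeries.coeff 1 u ≠ 0) : Function.Injective (sub u hu) := by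
  rw [injective_iff_map_eq_zero]
  intro f hf
  by_contra hne
  have hu0 : u ≠ 0 := by
    rintro rfl
    simp at h1
  obtain ⟨m, g, hg, hg0⟩ : ∃ (m : ℕ) (g : ℂ⟦X⟧), f = PowerSeries.X ^ m * g ∧
      PowerSeries.constantCoeff g ≠ 0 := by
    refine ⟨f.order.toNat, PowerSeries.divXPowOrder f, ?_, ?_⟩
    · exact (PowerSeries.X_pow_order_mul_divXPowOrder).symm
    · exact PowerSeries.constantCoeff_divXPowOrder_eq_zero_iff.not.2 hne
  rw [hg, map_mul, map_pow, sub_X] at hf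
  rcases mul_eq_zero.1 hf with h | h
  · exact pow_ne_zero m hu0 h
  · apply hg0
    rw [← sub_const u hu g, h, map_zero]

theorem small : StSmall := by
  intro u hu f hu1 gu gF
  have hU := Gd.is one_pos gu
  have hH := Gd.is one_pos gF
  set U : ℂ → ℂ := fun z => ∑' n, z ^ n * PowerSeries.coeff n u with hUdef
  set H : ℂ → ℂ := fun z => ∑' n, z ^ n * PowerSeries.coeff n (sub u hu f) with hHdef
  have hU0 : U 0 = 0 := by rw [hU.zero_apply, hu]
  have hUa := hU.analytic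
  have hder : deriv U 0 ≠ 0 := by
    have h := ((is_iff U u).1 hU).deriv
    rw [h]
    change (fms u).coeff 1 ≠ 0
    rw [fms_coeff]
    exact hu1
  have hV := hUa.analyticAt_localInverse hder
  have hleft := hUa.hasStrictDerivAt.eventually_left_inverse hder
  set V := hUa.hasStrictDerivAt.localInverse _ _ _ hder with hVdef
  rw [hU0] at hV
  have hV0 : V 0 = 0 := by
    have := hleft.self_of_nhds
    rwa [hU0] at this
  have hGa : AnalyticAt ℂ (fun y => H (V y)) 0 := by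
    have h1 := hH.analytic
    rw [← hV0] at h1
    exact h1.comp hV
  obtain ⟨g, hg⟩ := exists_is hGa
  have hF : Is (fun z => H (V (U z))) (sub u hu f) := by
    refine hH.congr ?_
    filter_upwards [hleft] with z hz
    rw [hz]
  have h1 := comp_eq hU hu hg hF
  have h2 := sub_injective hu hu1 h1
  rw [h2]
  exact hg.gd

end Pool.Agent.Y255.PC
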